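import Pool.Agent.Lib.MP_1867c4_co.Family

set_option autoImplicit false

open Pool.Agent.Lib.MP_1867c4_co

namespace Pool.Agent.Results.MP_1867c4_co.BipartiteRatio

/-- The values of the ratio of the upper broadcast irredundance number to the upper broadcast
number over connected bipartite graphs with at least two vertices. -/
def ratios : Set ℝ :=
  {r | ∃ (V : Type) (_ : Fintype V) (G : SimpleGraph V), 2 ≤ Fintype.card V ∧ G.Connected ∧
    G.IsBipartite ∧ r = (upperIrredundant G : ℝ) / (upperBroadcast G : ℝ)}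

/-- The supremum of the ratio over connected bipartite graphs is 2, and it is not attained. -/
theorem result : IsLUB ratios 2 ∧ (2 : ℝ) ∉ ratios := by
  have hlt : ∀ r ∈ ratios, r < 2 := by
    rintro r ⟨V, _, G, hV, hG, hB, rfl⟩
    have : Nontrivial V := Fintype.one_lt_card_iff_nontrivial.1 hV
    have h1 := upperIrredundant_lt hG
    have h2 := card_le_two_mul hG hB
    have h3 : (0 : ℝ) < upperBroadcast G := by exact_mod_cast (show 0 < upperBroadcast G by omega)
    rw [div_lt_iff₀ h3]
    exact_mod_cast (show upperIrredundant G < 2 * upperBroadcast G by omega)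
  refine ⟨⟨fun r hr => (hlt r hr).le, fun b hb => ?_⟩, fun h => lt_irrefl _ (hlt 2 h)⟩
  by_contra hcon
  push Not at hcon
  obtain ⟨N, hN⟩ := exists_nat_gt (36 / (2 - b))
  have hb2 : 0 < 2 - b := by linarith
  have hG := fam_connected (L := N) (m := N)
  have hmem : (upperIrredundant (fam N N) : ℝ) / (upperBroadcast (fam N N) : ℝ) ∈ ratios :=
    ⟨Vx N N, inferInstance, fam N N, Fintype.one_lt_card, hG, fam_bipartite, rfl⟩
  have h1 := hb hmem
  have h2 := card_le_two_mul hG (fam_bipartite (L := N) (m := N))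
  have h2' : 1 < Fintype.card (Vx N N) := Fintype.one_lt_card
  have h3 : (0 : ℝ) < upperBroadcast (fam N N) := by
    exact_mod_cast (show 0 < upperBroadcast (fam N N) by omega)
  have h4 : ((2 * (N + 1) * N : ℕ) : ℝ) ≤ upperIrredundant (fam N N) := by
    exact_mod_cast fam_irr_lower
  have h5 : (upperBroadcast (fam N N) : ℝ) ≤ (((N + 1) * (N + 17) : ℕ) : ℝ) := by
    exact_mod_cast fam_upperBroadcast_le
  have hb0 : 0 ≤ b := le_trans (by positivity) h1
  rw [div_le_iff₀ h3] at h1
  rw [div_lt_iff₀ hb2] at hN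
  push_cast at h4 h5
  have h6 : 2 * ((N : ℝ) + 1) * N ≤ b * ((N + 1) * (N + 17)) :=
    h4.trans (h1.trans (mul_le_mul_of_nonneg_left h5 hb0))
  have h7 : (0 : ℝ) < N + 1 := by positivity
  have h8 : 2 * (N : ℝ) ≤ b * (N + 17) := by
    by_contra h
    push Not at h
    nlinarith
  nlinarith

end Pool.Agent.Results.MP_1867c4_co.BipartiteRatio
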